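import Mathlib

/-!
# Conformal harmonic discs and the minimal pseudometric of a domain in `ℝⁿ`
-/

open Complex Metric InnerProductSpace

namespace Pool.Agent.Helper58.MinimalMetric

/-- `IsConformalHarmonicDisc Ω f` says that `f` maps the open unit disc of `ℂ` into `Ω`, that it is
harmonic there, and that it is weakly conformal there: `|f_x| = |f_y|` and `f_x · f_y = 0` at every
point of the disc, where `f_x = fderiv ℝ f z 1` and `f_y = fderiv ℝ f z I`. -/
structure IsConformalHarmonicDisc {n : ℕ} (Ω : Set (EuclideanSpace ℝ (Fin n)))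
    (f : ℂ → EuclideanSpace ℝ (Fin n)) : Prop where
  mapsTo : ∀ z ∈ ball (0 : ℂ) 1, f z ∈ Ω
  harmonic : HarmonicOnNhd f (ball (0 : ℂ) 1)
  norm_eq : ∀ z ∈ ball (0 : ℂ) 1, ‖fderiv ℝ f z 1‖ = ‖fderiv ℝ f z I‖
  orthogonal : ∀ z ∈ ball (0 : ℂ) 1, inner ℝ (fderiv ℝ f z 1) (fderiv ℝ f z I) = 0

open Classical in
/-- The minimal pseudometric `g_Ω(x, u)`: it is `0` for `u = 0`, and otherwise the infimum of `1 / r`
over all `r > 0` for which there is a conformal harmonic disc `f` in `Ω` with `f 0 = x` and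
`f_x 0 = r u`. -/
noncomputable def minimalMetric {n : ℕ} (Ω : Set (EuclideanSpace ℝ (Fin n)))
    (x u : EuclideanSpace ℝ (Fin n)) : ℝ :=
  if u = 0 then 0 else
    sInf {t : ℝ | ∃ r : ℝ, 0 < r ∧ t = 1 / r ∧ ∃ f : ℂ → EuclideanSpace ℝ (Fin n),
      IsConformalHarmonicDisc Ω f ∧ f 0 = x ∧ fderiv ℝ f 0 1 = r • u}

end Pool.Agent.Helper58.MinimalMetric
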