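import Pool.Agent.Helper58.MinimalMetric.Defs

/-!
# The minimal pseudometric of a Euclidean domain need not be continuous

We show that for every `n ≥ 3` there is a bounded domain `Ω ⊂ ℝⁿ` whose minimal pseudometric
`g_Ω` is not continuous on `Ω × ℝⁿ`.  The domain is the union of the unit ball and of the half ball
`{‖x‖ < 2, x₂ > 0}`.
-/

open Complex Metric Set InnerProductSpace Real

namespace Pool.Agent.Helper58.MinimalMetric

lemma avg_mul_hol {F : ℂ → ℂ} {s : ℝ} (hs : 0 < s) (hs1 : s < 1)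
    (hF : AnalyticOnNhd ℂ F (ball 0 1)) :
    circleAverage (fun z => z * F z) 0 s = 0 := by
  have hsub : closedBall (0:ℂ) s ⊆ ball 0 1 := closedBall_subset_ball hs1
  have hFd : DifferentiableOn ℂ F (closedBall 0 s) := (hF.mono hsub).differentiableOn
  have : DiffContOnCl ℂ (fun z => z * F z) (ball 0 |s|) := by
    rw [abs_of_pos hs]
    apply DifferentiableOn.diffContOnCl
    rw [closure_ball _ hs.ne']
    exact differentiableOn_id.mul hFd
  rw [this.circleAverage]
  simp

lemma avg_conj_mul_hol {F : ℂ → ℂ} {s : ℝ} (hs : 0 < s) (hs1 : s < 1)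
    (hF : AnalyticOnNhd ℂ F (ball 0 1)) :
    circleAverage (fun z => (starRingEnd ℂ z) * F z) 0 s = (s : ℂ) ^ 2 * deriv F 0 := by
  have hsub : closedBall (0:ℂ) s ⊆ ball 0 1 := closedBall_subset_ball hs1
  have hFd : DifferentiableOn ℂ F (closedBall 0 s) := (hF.mono hsub).differentiableOn
  have key := hFd.deriv_eq_smul_circleIntegral hs
  rw [circleAverage_eq_circleIntegral hs.ne']
  have : (∮ z in C(0, s), (z - 0)⁻¹ • ((starRingEnd ℂ z) * F z))
      = ∮ z in C(0, s), (s : ℂ) ^ 2 • ((1 / (z - 0) ^ 2) • F z) := by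
    apply circleIntegral.integral_congr hs.le
    intro z hz
    have hz' : ‖z‖ = s := by simpa using hz
    have hz0 : z ≠ 0 := by
      rintro rfl; simp at hz'; exact hs.ne hz'
    have h2 : (starRingEnd ℂ z) = (s : ℂ) ^ 2 / z := by
      rw [eq_div_iff hz0, mul_comm, Complex.mul_conj, Complex.normSq_eq_norm_sq, hz']
      push_cast; rfl
    simp only [h2, sub_zero, smul_eq_mul]
    field_simp
  rw [this, circleIntegral.integral_smul, key]
  simp only [smul_eq_mul]
  have : (2 * (π : ℂ) * I) ≠ 0 := two_pi_I_ne_zero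
  field_simp

/-- first Fourier mode of a harmonic function on a circle -/
lemma avg_re_mul_harmonic {φ : ℂ → ℝ} {s : ℝ} (hs : 0 < s) (hs1 : s < 1)
    (hφ : HarmonicOnNhd φ (ball 0 1)) :
    circleAverage (fun z => z.re * φ z) 0 s = s ^ 2 / 2 * fderiv ℝ φ 0 1 ∧
    circleAverage (fun z => z.im * φ z) 0 s = s ^ 2 / 2 * fderiv ℝ φ 0 I := by
  obtain ⟨F, hF, hFφ⟩ := hφ.exists_analyticOnNhd_ball_re_eq
  have hsub : sphere (0:ℂ) |s| ⊆ ball 0 1 := by
    rw [abs_of_pos hs]; exact sphere_subset_ball hs1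
  have hFc : ContinuousOn F (sphere 0 |s|) := (hF.mono hsub).continuousOn
  have hFd : DifferentiableAt ℂ F 0 := (hF 0 (by simp)).differentiableAt
  have hder : fderiv ℝ φ 0 = reCLM.comp ((fderiv ℂ F 0).restrictScalars ℝ) := by
    have h1 : φ =ᶠ[nhds 0] reCLM ∘ F := by
      filter_upwards [ball_mem_nhds (0:ℂ) one_pos] with z hz
      simpa using (hFφ hz).symm
    rw [h1.fderiv_eq]
    exact (reCLM.hasFDerivAt.comp (0:ℂ) (hFd.hasFDerivAt.restrictScalars ℝ)).fderiv
  have e1 : fderiv ℝ φ 0 1 = (deriv F 0).re := by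
    rw [hder]; simp
  have e2 : fderiv ℝ φ 0 I = -(deriv F 0).im := by
    have : (fderiv ℂ F 0) I = I * deriv F 0 := by
      rw [← fderiv_apply_one_eq_deriv, ← smul_eq_mul, ← map_smul]; simp
    rw [hder]; simp [this]
  have c1 : CircleIntegrable (fun z => z * F z) 0 s := 
    ContinuousOn.circleIntegrable' (continuousOn_id.mul hFc)
  have c2 : CircleIntegrable (fun z => (starRingEnd ℂ z) * F z) 0 s := 
    ContinuousOn.circleIntegrable' (Complex.continuous_conj.continuousOn.mul hFc)
  have a1 := avg_mul_hol hs hs1 hF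
  have a2 := avg_conj_mul_hol hs hs1 hF
  have gen : ∀ α β : ℂ, circleAverage (fun z => (α * (z * F z) + β * ((starRingEnd ℂ z) * F z)).re) 0 s
      = (β * ((s : ℂ) ^ 2 * deriv F 0)).re := by
    intro α β
    have : (fun z => (α * (z * F z) + β * ((starRingEnd ℂ z) * F z)).re) = 
      (reCLM ∘ ((fun z => α • (z * F z)) + (fun z => β • ((starRingEnd ℂ z) * F z)))) := by
      ext z; simp
    rw [this, ContinuousLinearMap.circleAverage_comp_comm,
      circleAverage_add, circleAverage_fun_smul, circleAverage_fun_smul, a1, a2]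
    · simp 
    · exact c1.const_fun_smul
    · exact c2.const_fun_smul
    · exact (c1.const_fun_smul).add (c2.const_fun_smul)
  constructor
  · have : EqOn (fun z => z.re * φ z) 
      (fun z => ((1/2 : ℂ) * (z * F z) + (1/2 : ℂ) * ((starRingEnd ℂ z) * F z)).re) (sphere 0 |s|) := by
      intro z hz
      have := hFφ (hsub hz)
      simp only at this ⊢
      rw [← this]
      simp [Complex.add_re, Complex.mul_re]
      ring
    rw [circleAverage_congr_sphere this, gen, e1]
    simp [← Complex.ofReal_pow]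
    ring
  · have : EqOn (fun z => z.im * φ z) 
      (fun z => ((-I/2 : ℂ) * (z * F z) + (I/2 : ℂ) * ((starRingEnd ℂ z) * F z)).re) (sphere 0 |s|) := by
      intro z hz
      have := hFφ (hsub hz)
      simp only at this ⊢
      rw [← this]
      simp [Complex.add_re, Complex.mul_re]
      ring
    rw [circleAverage_congr_sphere this, gen, e2]
    simp [← Complex.ofReal_pow]
    ring


lemma avg_sub_sq {φ : ℂ → ℝ} {s : ℝ} (hs : 0 < s) (hs1 : s < 1)
    (hφ : HarmonicOnNhd φ (ball 0 1)) :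
    circleAverage (fun z => (φ z - fderiv ℝ φ 0 z) ^ 2) 0 s
      = circleAverage (fun z => (φ z) ^ 2) 0 s
        - s ^ 2 / 2 * ((fderiv ℝ φ 0 1) ^ 2 + (fderiv ℝ φ 0 I) ^ 2) := by
  set a := fderiv ℝ φ 0 1 with ha
  set b := fderiv ℝ φ 0 I with hb
  set L := fderiv ℝ φ 0 with hL
  have hLz : ∀ z, L z = z.re * a + z.im * b := by
    intro z
    conv_lhs => rw [← Complex.re_add_im z]
    rw [map_add]
    have e1 : L (z.re : ℂ) = z.re * a := by
      rw [show (z.re : ℂ) = z.re • (1 : ℂ) by simp, map_smul, smul_eq_mul]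
    have e2 : L ((z.im : ℂ) * I) = z.im * b := by
      rw [show (z.im : ℂ) * I = z.im • I by simp, map_smul, smul_eq_mul]
    rw [e1, e2]
  have hsub : sphere (0:ℂ) |s| ⊆ ball 0 1 := by
    rw [abs_of_pos hs]; exact sphere_subset_ball hs1
  have hφc : ContinuousOn φ (sphere 0 |s|) := hφ.continuousOn.mono hsub
  have hLh : HarmonicOnNhd (fun z => L z) (ball 0 1) := by
    intro z _
    exact (analyticAt_id.harmonicAt).comp_CLM L
  have hLf : fderiv ℝ (fun z => L z) 0 = L := L.fderiv
  obtain ⟨p1, p2⟩ := avg_re_mul_harmonic hs hs1 hφ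
  obtain ⟨q1, q2⟩ := avg_re_mul_harmonic hs hs1 hLh
  rw [hLf] at q1 q2
  have cre : ContinuousOn (fun z : ℂ => z.re) (sphere 0 |s|) := Complex.continuous_re.continuousOn
  have cim : ContinuousOn (fun z : ℂ => z.im) (sphere 0 |s|) := Complex.continuous_im.continuousOn
  have cL : ContinuousOn (fun z : ℂ => L z) (sphere 0 |s|) := L.continuous.continuousOn
  have expand : (fun z => (φ z - L z) ^ 2) = 
     (((fun z => (φ z) ^ 2) + (fun z => (-2 * a) • (z.re * φ z))) + (fun z => (-2 * b) • (z.im * φ z)))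
      + ((fun z => a • (z.re * L z)) + (fun z => b • (z.im * L z))) := by
    ext z
    simp only [Pi.add_apply, smul_eq_mul, hLz]
    ring
  have i1 : CircleIntegrable (fun z => (φ z) ^ 2) 0 s := ContinuousOn.circleIntegrable' (hφc.pow 2)
  have i2 : CircleIntegrable (fun z : ℂ => (-2 * a) • (z.re * φ z)) 0 s := 
    ContinuousOn.circleIntegrable' (by fun_prop)
  have i3 : CircleIntegrable (fun z : ℂ => (-2 * b) • (z.im * φ z)) 0 s := 
    ContinuousOn.circleIntegrable' (by fun_prop)
  have i4 : CircleIntegrable (fun z : ℂ => a • (z.re * L z)) 0 s := 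
    ContinuousOn.circleIntegrable' (by fun_prop)
  have i5 : CircleIntegrable (fun z : ℂ => b • (z.im * L z)) 0 s := 
    ContinuousOn.circleIntegrable' (by fun_prop)
  rw [expand, circleAverage_add ((i1.add i2).add i3) (i4.add i5), circleAverage_add (i1.add i2) i3,
    circleAverage_add i1 i2, circleAverage_add i4 i5, circleAverage_fun_smul, circleAverage_fun_smul,
    circleAverage_fun_smul, circleAverage_fun_smul, p1, p2, q1, q2]
  simp only [smul_eq_mul]
  rw [← ha, ← hb]
  ring


variable {n : ℕ}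

lemma avg_norm_sub_sq {f : ℂ → EuclideanSpace ℝ (Fin n)} {s : ℝ} (hs : 0 < s) (hs1 : s < 1)
    (hf : HarmonicOnNhd f (ball 0 1)) :
    circleAverage (fun z => ‖f z - fderiv ℝ f 0 z‖ ^ 2) 0 s
      = circleAverage (fun z => ‖f z‖ ^ 2) 0 s
        - s ^ 2 / 2 * (‖fderiv ℝ f 0 1‖ ^ 2 + ‖fderiv ℝ f 0 I‖ ^ 2) := by
  have hsub : sphere (0:ℂ) |s| ⊆ ball 0 1 := by
    rw [abs_of_pos hs]; exact sphere_subset_ball hs1
  have hfc : ContinuousOn f (sphere 0 |s|) := hf.continuousOn.mono hsub
  have hfd : DifferentiableAt ℝ f 0 := (hf 0 (by simp)).1.differentiableAt (by norm_num)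
  let p : Fin n → (EuclideanSpace ℝ (Fin n) →L[ℝ] ℝ) := fun j => EuclideanSpace.proj j
  have hfdj : ∀ j, fderiv ℝ (fun z => f z j) 0 = (p j).comp (fderiv ℝ f 0) := by
    intro j
    exact ((p j).hasFDerivAt.comp (0:ℂ) hfd.hasFDerivAt).fderiv
  have hh : ∀ j, HarmonicOnNhd (fun z => f z j) (ball 0 1) := fun j => hf.comp_CLM (p j)
  have hc : ∀ j, ContinuousOn (fun z => f z j) (sphere 0 |s|) := fun j => (hh j).continuousOn.mono hsub
  have hL : ∀ j, Continuous (fun z : ℂ => (fderiv ℝ f 0 z) j) := fun j => 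
    ((p j).comp (fderiv ℝ f 0)).continuous
  have key := fun j => avg_sub_sq hs hs1 (hh j)
  simp only [hfdj] at key
  have e1 : (fun z => ‖f z - fderiv ℝ f 0 z‖ ^ 2) = 
      fun z => ∑ j, (f z j - ((p j).comp (fderiv ℝ f 0)) z) ^ 2 := by
    ext z
    rw [EuclideanSpace.real_norm_sq_eq]
    rfl
  have e2 : (fun z => ‖f z‖ ^ 2) = fun z => ∑ j, (f z j) ^ 2 := by
    ext z
    rw [EuclideanSpace.real_norm_sq_eq]
  rw [e1, e2, circleAverage_fun_sum, circleAverage_fun_sum, EuclideanSpace.real_norm_sq_eq, 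
    EuclideanSpace.real_norm_sq_eq, ← Finset.sum_add_distrib, Finset.mul_sum, ← Finset.sum_sub_distrib]
  · apply Finset.sum_congr rfl
    intro j _
    rw [key j]
    rfl
  · intro j _
    exact ContinuousOn.circleIntegrable' ((hc j).pow 2)
  · intro j _
    exact ContinuousOn.circleIntegrable' (((hc j).sub (hL j).continuousOn).pow 2)

lemma norm_le_of_avg {g : ℂ → EuclideanSpace ℝ (Fin n)} {s A l : ℝ} (hs : 0 < s) (hs1 : s < 1)
    (hl : 0 < l) (hg : HarmonicOnNhd g (ball 0 1)) {w : ℂ} (hw : ‖w‖ < s)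
    (hA : circleAverage (fun z => ‖g z‖ ^ 2) 0 s ≤ A) :
    ‖g w‖ ≤ (s + ‖w‖) / (s - ‖w‖) * ((l + A / l) / 2) := by
  have hsub : closedBall (0:ℂ) s ⊆ ball 0 1 := closedBall_subset_ball hs1
  have hsub' : sphere (0:ℂ) |s| ⊆ ball 0 1 := by
    rw [abs_of_pos hs]; exact sphere_subset_ball hs1
  have hgc : ContinuousOn g (sphere 0 |s|) := hg.continuousOn.mono hsub'
  have hA0 : 0 ≤ A := le_trans (circleAverage_nonneg_of_nonneg (fun z _ => by positivity)) hA
  have hK : 0 < (s + ‖w‖) / (s - ‖w‖) := div_pos (by positivity) (by linarith)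
  by_cases h0 : g w = 0
  · rw [h0, norm_zero]
    positivity
  have hn0 : 0 < ‖g w‖ := norm_pos_iff.mpr h0
  set u := (‖g w‖)⁻¹ • g w with hu
  have hun : ‖u‖ = 1 := by rw [hu, norm_smul]; simp; field_simp
  have hψ : HarmonicOnNhd (fun z => inner ℝ u (g z)) (ball 0 1) := hg.comp_CLM (innerSL ℝ u)
  have hwb : w ∈ ball (0:ℂ) s := by simpa using hw
  have hP := (hψ.mono hsub).circleAverage_poissonKernel_smul hwb
  have hw1 : inner ℝ u (g w) = ‖g w‖ := by
    rw [hu, inner_smul_left, real_inner_self_eq_norm_sq]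
    simp; field_simp
  rw [hw1] at hP
  rw [← hP]
  have hPc : ContinuousOn (poissonKernel 0 w) (sphere 0 |s|) := by
    rw [poissonKernel_eq_re_herglotzRieszKernel]
    exact Complex.continuous_re.comp_continuousOn (continuousOn_herglotzRieszKernel_sphere hwb)
  have hψc : ContinuousOn (fun z => inner ℝ u (g z)) (sphere 0 |s|) := hψ.continuousOn.mono hsub'
  have i1 : CircleIntegrable (poissonKernel 0 w • fun z => inner ℝ u (g z)) 0 s := 
    ContinuousOn.circleIntegrable' (hPc.smul hψc)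
  have i2 : CircleIntegrable (fun z => ‖g z‖ ^ 2) 0 s := 
    ContinuousOn.circleIntegrable' (hgc.norm.pow 2)
  have i3 : CircleIntegrable (fun z => ((s + ‖w‖) / (s - ‖w‖)) • ((l/2) + (1/(2*l)) • ‖g z‖ ^ 2)) 0 s := 
    ContinuousOn.circleIntegrable' (by fun_prop)
  have step : circleAverage (poissonKernel 0 w • fun z => inner ℝ u (g z)) 0 s ≤ 
     circleAverage (fun z => ((s + ‖w‖) / (s - ‖w‖)) • ((l/2) + (1/(2*l)) • ‖g z‖ ^ 2)) 0 s := by
    apply circleAverage_mono i1 i3
    intro z hz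
    rw [abs_of_pos hs] at hz
    have hz' : ‖z‖ = s := by simpa using hz
    have hPle : poissonKernel 0 w z ≤ (s + ‖w‖) / (s - ‖w‖) := by
      rw [poissonKernel_eq_re_herglotzRieszKernel]
      have := re_herglotzRieszKernel_le hz hwb
      simpa [herglotzRieszKernel_def] using this
    have hP0 : 0 ≤ poissonKernel 0 w z := by
      rw [poissonKernel_def]
      apply div_nonneg _ (by positivity)
      simp only [sub_zero, hz']
      have : ‖w‖ ^ 2 ≤ s ^ 2 := by gcongr
      linarith
    have hin : inner ℝ u (g z) ≤ ‖g z‖ := by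
      have := real_inner_le_norm u (g z)
      rwa [hun, one_mul] at this
    have hAM : ‖g z‖ ≤ (l/2) + (1/(2*l)) • ‖g z‖ ^ 2 := by
      have : 0 ≤ (l - ‖g z‖) ^ 2 / (2 * l) := by positivity
      have e : (l - ‖g z‖) ^ 2 / (2 * l) = (l/2) + (1/(2*l)) • ‖g z‖ ^ 2 - ‖g z‖ := by
        simp only [smul_eq_mul]; field_simp; ring
      linarith
    simp only [Pi.smul_apply', smul_eq_mul] at *
    calc poissonKernel 0 w z * inner ℝ u (g z) ≤ poissonKernel 0 w z * ((l/2) + (1/(2*l)) * ‖g z‖ ^ 2) := by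
          apply mul_le_mul_of_nonneg_left _ hP0
          linarith
      _ ≤ _ := by
          apply mul_le_mul_of_nonneg_right hPle
          positivity
  refine step.trans ?_
  rw [circleAverage_fun_smul, circleAverage_fun_add, circleAverage_const, circleAverage_fun_smul, smul_eq_mul]
  · apply mul_le_mul_of_nonneg_left _ hK.le
    have : 1 / (2 * l) * circleAverage (fun z => ‖g z‖ ^ 2) 0 s ≤ 1 / (2 * l) * A := by
      apply mul_le_mul_of_nonneg_left hA (by positivity)
    have e : (l + A / l) / 2 = l / 2 + 1 / (2*l) * A := by field_simp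
    rw [e]
    simpa using this
  · exact ContinuousOn.circleIntegrable' (by fun_prop)
  · exact i2.const_fun_smul


/-- The domain: the unit ball together with the upper half of the ball of radius two. -/
def dom (n : ℕ) (k : Fin n) : Set (EuclideanSpace ℝ (Fin n)) :=
  {x | ‖x‖ < 1} ∪ {x | ‖x‖ < 2 ∧ 0 < x k}

lemma dom_isOpen (n : ℕ) (k : Fin n) : IsOpen (dom n k) := by
  have hc : Continuous (fun x : EuclideanSpace ℝ (Fin n) => x k) := 
    (EuclideanSpace.proj (𝕜 := ℝ) k).continuous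
  exact (isOpen_lt continuous_norm continuous_const).union
    ((isOpen_lt continuous_norm continuous_const).inter (isOpen_lt continuous_const hc))

lemma dom_isConnected (n : ℕ) (k : Fin n) : IsConnected (dom n k) := by
  apply IsConnected.union
  · refine ⟨EuclideanSpace.single k (1/2 : ℝ), ?_, ?_, ?_⟩
    · simp; norm_num
    · simp; norm_num
    · simp
  · refine (Convex.isConnected ?_ ⟨0, by simp⟩)
    have : {x : EuclideanSpace ℝ (Fin n) | ‖x‖ < 1} = ball 0 1 := by ext; simp
    rw [this]; exact convex_ball _ _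
  · refine (Convex.isConnected ?_ ⟨EuclideanSpace.single k (1/2 : ℝ), ?_, ?_⟩)
    · have : {x : EuclideanSpace ℝ (Fin n) | ‖x‖ < 2 ∧ 0 < x k} = ball 0 2 ∩ 
        {x | 0 < (EuclideanSpace.proj (𝕜 := ℝ) k) x} := by ext; simp
      rw [this]
      exact (convex_ball _ _).inter (convex_halfSpace_gt (EuclideanSpace.proj (𝕜 := ℝ) k).isLinear _)
    · simp; norm_num
    · simp

lemma dom_isBounded (n : ℕ) (k : Fin n) : Bornology.IsBounded (dom n k) := by
  apply (isBounded_ball (x := (0 : EuclideanSpace ℝ (Fin n))) (r := 2)).subset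
  rintro x (hx | hx)
  · have : ‖x‖ < 1 := hx
    simp; linarith
  · simpa using hx.1

/-- flat disc of radius `ρ` with centre `x` in the coordinate plane `(i, j)` -/
noncomputable def flat {n : ℕ} (x : EuclideanSpace ℝ (Fin n)) (i j : Fin n) (ρ : ℝ) (z : ℂ) :
    EuclideanSpace ℝ (Fin n) :=
  x + (z.re • EuclideanSpace.single i ρ + z.im • EuclideanSpace.single j ρ)

lemma flat_hasFDerivAt (x : EuclideanSpace ℝ (Fin n)) (i j : Fin n) (ρ : ℝ) (z : ℂ) :
    HasFDerivAt (flat x i j ρ) (reCLM.smulRight (EuclideanSpace.single i ρ) + 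
      imCLM.smulRight (EuclideanSpace.single j ρ)) z := by
  have := ((reCLM.smulRight (EuclideanSpace.single i ρ) + 
      imCLM.smulRight (EuclideanSpace.single j ρ)).hasFDerivAt (x := z)).const_add x
  exact this

lemma flat_isConformalHarmonicDisc {Ω : Set (EuclideanSpace ℝ (Fin n))} 
    (x : EuclideanSpace ℝ (Fin n)) {i j : Fin n} (hij : i ≠ j) (ρ : ℝ)
    (h : ∀ z ∈ ball (0 : ℂ) 1, flat x i j ρ z ∈ Ω) : 
    IsConformalHarmonicDisc Ω (flat x i j ρ) where
  mapsTo := h
  harmonic := by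
    intro z _
    have h1 := (analyticAt_id (𝕜 := ℂ) (z := z)).harmonicAt.comp_CLM 
      (reCLM.smulRight (EuclideanSpace.single i ρ) + imCLM.smulRight (EuclideanSpace.single j ρ))
    exact (harmonicAt_const x).add h1
  norm_eq := by
    intro z _
    rw [(flat_hasFDerivAt x i j ρ z).fderiv]
    simp
  orthogonal := by
    intro z _
    rw [(flat_hasFDerivAt x i j ρ z).fderiv]
    simp [EuclideanSpace.inner_single_left, hij]


lemma single_eq_smul (i : Fin n) (t : ℝ) :
    (EuclideanSpace.single i t : EuclideanSpace ℝ (Fin n)) = t • EuclideanSpace.single i 1 := by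
  ext l
  by_cases h : l = i
  · subst h; simp
  · simp [h]

lemma single_eq_zero (i : Fin n) :
    (EuclideanSpace.single i 0 : EuclideanSpace ℝ (Fin n)) = 0 := by
  rw [single_eq_smul, zero_smul]

lemma norm_flat_sq (x : EuclideanSpace ℝ (Fin n)) {i j : Fin n} (hij : i ≠ j) (hi : x i = 0)
    (hj : x j = 0) (ρ : ℝ) (z : ℂ) : ‖flat x i j ρ z‖ ^ 2 = ‖x‖ ^ 2 + ρ ^ 2 * ‖z‖ ^ 2 := by
  unfold flat
  rw [norm_add_sq_real, norm_add_sq_real]
  simp only [inner_add_right, inner_smul_right, inner_smul_left,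
    EuclideanSpace.inner_single_right, hi, hj, norm_smul, PiLp.norm_single]
  have : ‖z‖ ^ 2 = z.re ^ 2 + z.im ^ 2 := by
    rw [← Complex.normSq_eq_norm_sq, Complex.normSq_apply]; ring
  rw [this]
  simp [hij, mul_pow]
  ring

lemma minimalMetric_le {Ω : Set (EuclideanSpace ℝ (Fin n))} {x : EuclideanSpace ℝ (Fin n)}
    {i j : Fin n} (hij : i ≠ j) {ρ : ℝ} (hρ : 0 < ρ)
    (h : ∀ z ∈ ball (0 : ℂ) 1, flat x i j ρ z ∈ Ω) :
    minimalMetric Ω x (EuclideanSpace.single i 1) ≤ 1 / ρ := by
  unfold minimalMetric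
  rw [if_neg (by simp)]
  apply csInf_le
  · refine ⟨0, ?_⟩
    rintro t ⟨r, hr, rfl, -⟩
    positivity
  · refine ⟨ρ, hρ, rfl, flat x i j ρ, flat_isConformalHarmonicDisc x hij ρ h, by simp [flat], ?_⟩
    rw [(flat_hasFDerivAt x i j ρ 0).fderiv, single_eq_smul i ρ]
    simp

lemma radius_le {k i : Fin n} {r : ℝ} (hr : 0 < r) {f : ℂ → EuclideanSpace ℝ (Fin n)}
    (hf : IsConformalHarmonicDisc (dom n k) f) (hf0 : f 0 = 0) 
    (hfx : fderiv ℝ f 0 1 = r • EuclideanSpace.single i 1) : r ≤ 1.9999 := by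
  by_contra hcon
  push Not at hcon
  have h0 : (0:ℂ) ∈ ball (0:ℂ) 1 := by simp
  have hax : ‖fderiv ℝ f 0 1‖ = r := by rw [hfx, norm_smul]; simp [abs_of_pos hr]
  have hay : ‖fderiv ℝ f 0 I‖ = r := by rw [← hf.norm_eq 0 h0, hax]
  have horth := hf.orthogonal 0 h0
  -- the linear part of `f`
  have hL : ∀ z : ℂ, ‖fderiv ℝ f 0 z‖ ^ 2 = r ^ 2 * ‖z‖ ^ 2 := by
    intro z
    have hz : fderiv ℝ f 0 z = z.re • fderiv ℝ f 0 1 + z.im • fderiv ℝ f 0 I := by
      rw [← map_smul, ← map_smul, ← map_add]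
      congr 1
      simp
    have hz2 : ‖z‖ ^ 2 = z.re ^ 2 + z.im ^ 2 := by
      rw [← Complex.normSq_eq_norm_sq, Complex.normSq_apply]; ring
    rw [hz, norm_add_sq_real, inner_smul_left, inner_smul_right, horth, norm_smul, norm_smul, hax, 
      hay, hz2]
    simp [mul_pow]
    ring
  -- on the circle of radius 3/4 there is a point which is mapped to the lower half space
  have hsub34 : closedBall (0:ℂ) |3/4| ⊆ ball 0 1 := closedBall_subset_ball (by norm_num [abs_of_pos])
  have hharm : HarmonicOnNhd (fun z => f z k) (ball 0 1) := 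
    hf.harmonic.comp_CLM (EuclideanSpace.proj (𝕜 := ℝ) k)
  obtain ⟨w, hw, hwk⟩ : ∃ w : ℂ, ‖w‖ = 3/4 ∧ f w k ≤ 0 := by
    by_contra hne
    push Not at hne
    have hav := (hharm.mono hsub34).circleAverage_eq
    rw [hf0] at hav
    have hcont : ContinuousOn (fun z => f z k) (sphere 0 |3/4|) := 
      hharm.continuousOn.mono (sphere_subset_closedBall.trans hsub34)
    have hne' : (sphere (0:ℂ) |3/4|).Nonempty := ⟨(3/4 : ℝ), by simp; norm_num⟩
    obtain ⟨z0, hz0, hmin⟩ := (isCompact_sphere (0:ℂ) |3/4|).exists_isMinOn hne' hcont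
    have hz0' : ‖z0‖ = 3/4 := by
      have := mem_sphere_zero_iff_norm.mp hz0
      rw [this]; norm_num [abs_of_pos]
    have hpos := hne z0 hz0'
    have : f z0 k ≤ circleAverage (fun z => f z k) 0 (3/4) := by
      rw [← circleAverage_const (f z0 k) (0:ℂ) (3/4)]
      apply circleAverage_mono
      · exact ContinuousOn.circleIntegrable' continuousOn_const
      · exact ContinuousOn.circleIntegrable' hcont
      · intro z hz
        exact hmin hz
    rw [hav] at this
    simp at this
    linarith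
  have hwball : w ∈ ball (0:ℂ) 1 := by simp [hw]; norm_num
  have hfw : ‖f w‖ < 1 := by
    rcases hf.mapsTo w hwball with h | h
    · exact h
    · exact absurd h.2 (not_lt.mpr hwk)
  -- on the other hand, `f` is close to its linear part
  have hbd : ∀ z ∈ ball (0:ℂ) 1, ‖f z‖ ≤ 2 := by
    intro z hz
    rcases hf.mapsTo z hz with h | h
    · have : ‖f z‖ < 1 := h
      linarith
    · exact h.1.le
  have hs : (0:ℝ) < 0.9999 := by norm_num
  have hs1 : (0.9999:ℝ) < 1 := by norm_num
  have hsubs : sphere (0:ℂ) |0.9999| ⊆ ball 0 1 := by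
    rw [abs_of_pos hs]; exact sphere_subset_ball hs1
  have hav1 : circleAverage (fun z => ‖f z‖ ^ 2) 0 0.9999 ≤ 4 := by
    apply circleAverage_mono_on_of_le_circle
    · exact ContinuousOn.circleIntegrable' ((hf.harmonic.continuousOn.mono hsubs).norm.pow 2)
    · intro z hz
      have := hbd z (hsubs hz)
      nlinarith [norm_nonneg (f z)]
  have hav2 := avg_norm_sub_sq hs hs1 hf.harmonic
  rw [hax, hay] at hav2
  have hgharm : HarmonicOnNhd (fun z => f z - fderiv ℝ f 0 z) (ball 0 1) := by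
    intro z hz
    exact (hf.harmonic z hz).sub ((analyticAt_id (𝕜 := ℂ)).harmonicAt.comp_CLM (fderiv ℝ f 0))
  have hA : circleAverage (fun z => ‖f z - fderiv ℝ f 0 z‖ ^ 2) 0 0.9999 ≤ 0.00122 := by
    rw [hav2]
    nlinarith
  have hfin := norm_le_of_avg hs hs1 (l := 0.035) (by norm_num) hgharm (w := w) 
    (by rw [hw]; norm_num) hA
  have hLw : ‖fderiv ℝ f 0 w‖ = r * (3/4) := by
    have h := hL w
    rw [hw, ← mul_pow] at h
    exact (pow_left_inj₀ (norm_nonneg _) (by positivity) (by norm_num)).mp h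
  have htri : ‖fderiv ℝ f 0 w‖ ≤ ‖f w‖ + ‖f w - fderiv ℝ f 0 w‖ := by
    have := norm_sub_le (f w) (f w - fderiv ℝ f 0 w)
    simpa using this
  rw [hw] at hfin
  rw [hLw] at htri
  norm_num at hfin
  linarith

/-- **Theorem.** For every `n ≥ 3` there is a bounded domain `Ω ⊂ ℝⁿ` whose minimal pseudometric
is not continuous on `Ω × ℝⁿ`. -/
theorem main (n : ℕ) (hn : 3 ≤ n) :
    ∃ Ω : Set (EuclideanSpace ℝ (Fin n)), IsOpen Ω ∧ IsConnected Ω ∧ Bornology.IsBounded Ω ∧
      ¬ ContinuousOn (fun p : EuclideanSpace ℝ (Fin n) × EuclideanSpace ℝ (Fin n) =>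
        minimalMetric Ω p.1 p.2) (Ω ×ˢ univ) := by
  let i : Fin n := ⟨0, by omega⟩
  let j : Fin n := ⟨1, by omega⟩
  let k : Fin n := ⟨2, by omega⟩
  have hij : i ≠ j := by simp [i, j]
  have hik : i ≠ k := by simp [i, k]
  have hjk : j ≠ k := by simp [j, k]
  refine ⟨dom n k, dom_isOpen n k, dom_isConnected n k, dom_isBounded n k, ?_⟩
  intro hcont
  set e : EuclideanSpace ℝ (Fin n) := EuclideanSpace.single i 1 with he
  -- the value at `(0, e)` is at least `1 / 1.9999`
  have hlow : 1 / 1.9999 ≤ minimalMetric (dom n k) 0 e := by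
    unfold minimalMetric
    rw [if_neg (by simp [he])]
    apply le_csInf
    · refine ⟨1 / (1/2), 1/2, by norm_num, rfl, flat 0 i j (1/2), 
        flat_isConformalHarmonicDisc 0 hij (1/2) ?_, by simp [flat], ?_⟩
      · intro z hz
        left
        have h1 := norm_flat_sq (n := n) 0 hij rfl rfl (1/2) z
        have hz' : ‖z‖ < 1 := by simpa using hz
        have h2 : ‖flat (0 : EuclideanSpace ℝ (Fin n)) i j (1/2) z‖ ^ 2 < 1 := by
          rw [h1]; simp; nlinarith [norm_nonneg z]
        show ‖flat (0 : EuclideanSpace ℝ (Fin n)) i j (1/2) z‖ < 1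
        nlinarith [norm_nonneg (flat (0 : EuclideanSpace ℝ (Fin n)) i j (1/2) z)]
      · rw [(flat_hasFDerivAt 0 i j (1/2) 0).fderiv, single_eq_smul i (1/2)]
        simp [he]
    · rintro t ⟨r, hr, rfl, f, hf, hf0, hfx⟩
      exact one_div_le_one_div_of_le hr (radius_le hr hf hf0 hfx)
  -- the values at `(t e_k, e)` for small `t > 0`
  have hup : ∀ t : ℝ, 0 < t → t < 1 → 
      minimalMetric (dom n k) (EuclideanSpace.single k t) e ≤ 1 / √(4 - t ^ 2) := by
    intro t ht ht1
    have hpos : 0 < 4 - t ^ 2 := by nlinarith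
    apply minimalMetric_le hij (Real.sqrt_pos.mpr hpos)
    intro z hz
    right
    have hz' : ‖z‖ < 1 := by simpa using hz
    constructor
    · have h1 := norm_flat_sq (n := n) (EuclideanSpace.single k t) hij (by simp [hik]) 
        (by simp [hjk]) (√(4 - t ^ 2)) z
      rw [Real.sq_sqrt hpos.le] at h1
      have h2 : ‖flat (EuclideanSpace.single k t) i j (√(4 - t ^ 2)) z‖ ^ 2 < 4 := by
        rw [h1]
        simp only [PiLp.norm_single, Real.norm_eq_abs, sq_abs]
        have : ‖z‖ ^ 2 < 1 := by nlinarith [norm_nonneg z]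
        nlinarith
      nlinarith [norm_nonneg (flat (EuclideanSpace.single k t) i j (√(4 - t ^ 2)) z)]
    · simp [flat, hik.symm, hjk.symm, ht]
  -- the path `t ↦ (t e_k, e)`
  have hmem0 : ((0 : EuclideanSpace ℝ (Fin n)), e) ∈ dom n k ×ˢ (univ : Set (EuclideanSpace ℝ (Fin n))) := by
    refine ⟨Or.inl ?_, trivial⟩
    simp
  have hpath : Filter.Tendsto (fun t : ℝ => (EuclideanSpace.single k t, e)) (nhdsWithin 0 (Ioi 0)) 
      (nhdsWithin ((0 : EuclideanSpace ℝ (Fin n)), e) (dom n k ×ˢ univ)) := by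
    apply tendsto_nhdsWithin_of_tendsto_nhds_of_eventually_within
    · have hc : Continuous (fun t : ℝ => ((EuclideanSpace.single k t : EuclideanSpace ℝ (Fin n)), e)) := by
        refine Continuous.prodMk ?_ continuous_const
        have hc1 : Continuous (fun t : ℝ => 
            t • (EuclideanSpace.single k 1 : EuclideanSpace ℝ (Fin n))) := 
          continuous_id.smul continuous_const
        exact hc1.congr (fun t => (single_eq_smul k t).symm)
      have h0 : ((EuclideanSpace.single k (0:ℝ) : EuclideanSpace ℝ (Fin n)), e) = (0, e) := by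
        rw [single_eq_zero]
      rw [← h0]
      exact (hc.tendsto 0).mono_left nhdsWithin_le_nhds
    · filter_upwards [Ioo_mem_nhdsGT (show (0:ℝ) < 1 by norm_num)] with t ht
      refine ⟨Or.inl ?_, trivial⟩
      simp [abs_of_pos ht.1, ht.2]
  have hlim := (hcont _ hmem0).tendsto.comp hpath
  have hlim2 : Filter.Tendsto (fun t : ℝ => 1 / √(4 - t ^ 2)) (nhdsWithin 0 (Ioi 0)) (nhds (1 / 2)) := by
    have hc : ContinuousAt (fun t : ℝ => 1 / √(4 - t ^ 2)) 0 := by
      apply ContinuousAt.div continuousAt_const (by fun_prop)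
      simp
    have := hc.tendsto
    have h4 : √(4 : ℝ) = 2 := by
      rw [show (4:ℝ) = 2 ^ 2 by norm_num]; exact Real.sqrt_sq (by norm_num)
    simp only [ne_eq, OfNat.ofNat_ne_zero, not_false_eq_true, zero_pow, sub_zero, h4] at this
    exact this.mono_left nhdsWithin_le_nhds
  have hle := le_of_tendsto_of_tendsto hlim hlim2 (by
    filter_upwards [Ioo_mem_nhdsGT (show (0:ℝ) < 1 by norm_num)] with t ht
    exact hup t ht.1 ht.2)
  have : (1:ℝ) / 1.9999 ≤ 1 / 2 := hlow.trans hle
  norm_num at this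

end Pool.Agent.Helper58.MinimalMetric
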